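import Pool.Agent.V11223.MC.Time

/-!
# Deterministic constant-ratio approximation of multi-criteria Max-STSP

The instance, in which the weight of every undirected edge is written once, is turned in polynomial
time into the instance of Max-ATSP with symmetric weights (and weight zero on the diagonal); the
algorithm of the library `Pool.Agent.V11223.MC` is run on it. The weight of a tour through at least
three vertices does not depend on the diagonal.
-/

namespace Pool.Agent.Results.MP_addf94_lc.UndirectedConstantRatio

open Pool.Agent.NPC Pool.Agent.V11223.MC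

/-- The instance of `k`-criteria Max-STSP on the vertices `0, …, n - 1` with weight functions
`w 0, …, w (k - 1)` on the unordered pairs: for every criterion and every vertex `u`, the weights
of the edges `{u, v}` with `v < u`. -/
def instU (k n : ℕ) (w : ℕ → Sym2 ℕ → ℚ) : List (List (List ℚ)) :=
  (List.range k).map fun i => (List.range n).map fun u => (List.range u).map fun v => w i s(u, v)

/-- The square matrices of the triangular ones. -/
def square (I : List (List (List ℚ))) : List (List (List ℚ)) :=
  I.map fun M => (List.range M.length).map fun u => (List.range M.length).map fun v =>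
    if v < u then (M.getD u []).getD v 0 else (M.getD v []).getD u 0

/-- The weights of the directed edges. -/
def dirW (w : ℕ → Sym2 ℕ → ℚ) (i u v : ℕ) : ℚ := if u = v then 0 else w i s(u, v)

theorem getD_row {n u : ℕ} (hu : u < n) (f : ℕ → List ℚ) :
    ((List.range n).map f).getD u [] = f u := by
  rw [List.getD_eq_getElem _ _ (by simpa using hu)]
  simp

theorem getD_entry (u v : ℕ) (f : ℕ → ℚ) :
    ((List.range u).map f).getD v 0 = if v < u then f v else 0 := by
  split_ifs with h
  · rw [List.getD_eq_getElem _ _ (by simpa using h)]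
    simp
  · rw [List.getD_eq_default _ _ (by simpa using h)]

theorem square_instU (k n : ℕ) (w : ℕ → Sym2 ℕ → ℚ) :
    square (instU k n w) = inst k n (dirW w) := by
  unfold square instU inst
  rw [List.map_map]
  refine List.map_congr_left fun i _ => ?_
  simp only [Function.comp_apply, List.length_map, List.length_range]
  refine List.map_congr_left fun u hu => List.map_congr_left fun v hv => ?_
  rw [List.mem_range] at hu hv
  rw [getD_row hu, getD_row hv, getD_entry, getD_entry]
  unfold dirW
  rcases lt_trichotomy u v with h | h | h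
  · rw [if_neg (by omega), if_pos h, if_neg (by omega), Sym2.eq_swap]
  · subst h
    simp
  · rw [if_pos h, if_pos h, if_neg (by omega)]

theorem wt_dirW (w : ℕ → Sym2 ℕ → ℚ) (i : ℕ) {C : List ℕ} (hC : C.Nodup) (h2 : 2 ≤ C.length) :
    wt (dirW w i) C = wt (fun u v => w i s(u, v)) C := by
  unfold wt
  congr 1
  refine List.ext_getElem (by simp) fun j h1 h3 => ?_
  rw [List.getElem_zipWith, List.getElem_zipWith, List.getElem_rotate]
  have hj : j < C.length := by
    rw [List.length_zipWith] at h1
    omega
  unfold dirW
  rw [if_neg]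
  intro h
  have h4 := (List.Nodup.getElem_inj_iff hC).1 h
  rcases Nat.lt_or_ge (j + 1) C.length with h5 | h5
  · rw [Nat.mod_eq_of_lt h5] at h4
    omega
  · have h6 : j + 1 = C.length := by omega
    rw [h6, Nat.mod_self] at h4
    omega

theorem square_poly : Poly square := by
  have hb : ∀ (β : Type) [TEnc β] {M : β → List (List ℚ)} {u v : β → ℕ}, Poly M → Poly u →
      Poly v → Poly (fun x => ((M x).getD (u x) []).getD (v x) 0) := fun β _ M u v hM hu hv =>
    NPC.Poly.getD (NPC.Poly.getD hM hu (NPC.Poly.const [])) hv (NPC.Poly.const 0)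
  unfold square
  refine NPC.Poly.map (F := fun (_ : List (List (List ℚ))) (M : List (List ℚ)) =>
    (List.range M.length).map fun u => (List.range M.length).map fun v =>
      if v < u then (M.getD u []).getD v 0 else (M.getD v []).getD u 0) NPC.Poly.id ?_
  refine NPC.Poly.map (F := fun (p : List (List (List ℚ)) × List (List ℚ)) (u : ℕ) =>
    (List.range p.2.length).map fun v =>
      if v < u then (p.2.getD u []).getD v 0 else (p.2.getD v []).getD u 0)
    (UPoly.length (Poly.snd NPC.Poly.id)).range ?_
  refine NPC.Poly.map (F := fun (p : (List (List (List ℚ)) × List (List ℚ)) × ℕ) (v : ℕ) =>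
      if v < p.2 then (p.1.2.getD p.2 []).getD v 0 else (p.1.2.getD v []).getD p.2 0)
    (UPoly.length (Poly.snd (Poly.fst NPC.Poly.id))).range ?_
  have hv : Poly (fun p : ((List (List (List ℚ)) × List (List ℚ)) × ℕ) × ℕ => p.2) :=
    Poly.snd NPC.Poly.id
  have hu : Poly (fun p : ((List (List (List ℚ)) × List (List ℚ)) × ℕ) × ℕ => p.1.2) :=
    Poly.snd (Poly.fst NPC.Poly.id)
  have hM : Poly (fun p : ((List (List (List ℚ)) × List (List ℚ)) × ℕ) × ℕ => p.1.1.2) :=
    Poly.snd (Poly.fst (Poly.fst NPC.Poly.id))
  refine (NPC.Poly.ite (NPC.Poly.decide_lt hv hu) (hb _ hM hu hv) (hb _ hM hv hu)).congr fun p => ?_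
  simp only

/-- For every `k ≥ 1` there is an algorithm, computed by a Turing machine in polynomial time, that
for every instance of `k`-criteria Max-STSP with `n ≥ 3` vertices and nonnegative rational weights
outputs a list of Hamiltonian cycles which is a `1 / 16`-approximate Pareto curve. -/
theorem result (k : ℕ) (hk : 1 ≤ k) : ∃ f : List (List (List ℚ)) → List (List ℕ),
    Nonempty (Turing.TM2ComputableInPolyTime (bits : List (List (List ℚ)) → List Bool)
      (bits : List (List ℕ) → List Bool) f) ∧
    ∀ (n : ℕ), 3 ≤ n → ∀ w : ℕ → Sym2 ℕ → ℚ, (∀ i e, 0 ≤ w i e) →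
      (∀ C ∈ f (instU k n w), C.Perm (List.range n)) ∧
      ∀ H : List ℕ, H.Perm (List.range n) →
        ∃ C ∈ f (instU k n w), ∀ i < k,
          (1 / 16) * wt (fun u v => w i s(u, v)) H ≤ wt (fun u v => w i s(u, v)) C := by
  refine ⟨fun I => algoQ k (square I), H532.Poly.toTM ((V11223MC.algoQ_poly k).comp square_poly), ?_⟩
  intro n hn w h0
  have hd : ∀ i u v, 0 ≤ dirW w i u v := by
    intro i u v
    unfold dirW
    split_ifs
    · exact le_rfl
    · exact h0 i _
  simp only [square_instU]
  refine ⟨fun C hC => algoQ_tour hk _ hC, fun H hH => ?_⟩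
  obtain ⟨C, hC, h⟩ := algoQ_good hk (by omega) (dirW w) hd hH
  have hw : ∀ (D : List ℕ), D.Perm (List.range n) → ∀ i,
      wt (dirW w i) D = wt (fun u v => w i s(u, v)) D := fun D hD i =>
    wt_dirW w i (hD.nodup_iff.2 List.nodup_range) (by
      rw [hD.length_eq, List.length_range]; omega)
  refine ⟨C, hC, fun i hi => ?_⟩
  have := h i hi
  rw [hw H hH, hw C (algoQ_tour hk _ hC)] at this
  linarith

end Pool.Agent.Results.MP_addf94_lc.UndirectedConstantRatio
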